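import Pool.Agent.T9h5.NK.Main

/-!
# The noncommutative Kunneth conjecture in characteristic zero and the field of coefficients

Let `k` be a field of characteristic zero and `𝒜` a saturated dg category over `k`. The conjecture
`C_NC (𝒜)` depends on a field of coefficients `F`, which contains `k` or is contained in `k`: the
Kunneth projectors of `𝒜` should be `F`-linear combinations of noncommutative correspondences.

**Theorem.** The conjecture does not depend on `F`: if one of the projectors `π⁺`, `π⁻` of `𝒜` is an
`F`-linear combination of noncommutative correspondences for one field `F`, then both are combinations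
with rational coefficients, so that a multiple of each projector is given by a class in
`K_0 (𝒜ᵒᵖ ⊗ 𝒜)`, and the conjecture holds for all `F`.

Moreover the conjecture can be tested with one explicit correspondence. Let `f_1, ..., f_d` be a basis
of `K_0 (𝒜ᵒᵖ ⊗ 𝒜) ⊗ ℚ` modulo numerical equivalence, `Γ` the invertible matrix of the Euler
characteristics of the compositions `f_i f_j`, and let `z` be the Casimir correspondence, the sum
of `(Γ⁻¹)_(i j) f_i f_j` (its class modulo numerical equivalence does not depend on the basis). Then
the following statements are equivalent, for each choice of the classes `f_i`: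

* `C_NC (𝒜)` holds for one, or for all, fields of coefficients;
* all eigenvalues of `z` on `HP⁺ (𝒜)` are positive rational numbers, and all eigenvalues of `z` on
  `HP⁻ (𝒜)` are negative rational numbers;
* `z` has no common eigenvalue on `HP⁺ (𝒜)` and `HP⁻ (𝒜)`;
* `π⁺` and `π⁻` are polynomials in `z` with rational coefficients.

There is no finiteness assumption on the image of `K_0 (𝒜ᵒᵖ ⊗ 𝒜) ⊗ ℚ` in the endomorphisms of
`HP (𝒜)`, which is a `ℚ`-subspace of a vector space over `k` and not known to be finite-dimensional
for noncommutative `𝒜`, and nothing is assumed about the comparison of homological and numerical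
equivalence.

The setting. `C` is the category of the saturated dg categories over `k`, with the groups
`K_0 (𝒜ᵒᵖ ⊗ ℬ)` as morphisms, `HP 0` and `HP 1` are the even and odd part of periodic cyclic homology,
and `Ω` is a field which contains `k` and `F` (the larger one of both). The only input is that the
supertraces of correspondences are integers: these are the Euler characteristics of Hochschild
homology with coefficients in bimodules.

The proof. Let `R` be the algebra of the `k`-linear combinations of correspondences, as operators on
`HP (𝒜)`; we may assume that `k` is algebraically closed. Let `t` be the supertrace and `g_i` the dual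
basis, so that `z = ∑ f_i g_i` and `t (a b) = ∑ t (g_i a) t (f_i b)` for `a`, `b` in `R`. For an
idempotent `e` in `R` the matrix `t (g_i e f_j)` is idempotent, and its trace is `t (e z)`. So `t (e z)` is
a natural number, and it is positive if `t (e)` is not zero. If `π⁺` is in `R`, we take for `e` the
projector to the generalized eigenspace of `z` on `HP⁺ (𝒜)` for an eigenvalue `μ`, which is the
product of `π⁺` and a polynomial in `z`. Then `t (e z)` is `μ` times the rank of `e`, so `μ` is a
positive rational number. In the same way the eigenvalues on `HP⁻ (𝒜)` are rational and negative. So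
there is a rational polynomial in `z` which is the identity on `HP⁺ (𝒜)` and zero on `HP⁻ (𝒜)`.
-/

set_option autoImplicit false

open CategoryTheory Module

namespace Pool.Agent.Results.MP_eadf0f_ag.CoefficientFields

open Pool.Agent.T9h5.NK

universe v w x y z t

/-- **The noncommutative Kunneth conjecture does not depend on the field of coefficients.** -/
theorem result {k : Type x} [Field k] [CharZero k] {C : Type w} [Category.{v} C]
    (HP : ZMod 2 → C ⥤ ModuleCat.{z} k) (M : C) [∀ i, FiniteDimensional k ((HP i).obj M)]
    (heul : ∀ f : M ⟶ M, ∃ n : ℤ, euler HP f = n) :
    (∀ (Ω : Type y) [Field Ω] [Algebra k Ω] (F : Type t) [Field F] (ι : F →+* Ω) (e e' : ZMod 2),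
      IsAlgebraic HP Ω ι M e ↔ IsRational HP M e') ∧
    (∃ (d : ℕ) (f : Fin d → (M ⟶ M)) (Γ Δ : Matrix (Fin d) (Fin d) ℚ),
      IsNumericalBasis HP M f Γ Δ) ∧
    ∀ (d : ℕ) (f : Fin d → (M ⟶ M)) (Γ Δ : Matrix (Fin d) (Fin d) ℚ),
      IsNumericalBasis HP M f Γ Δ → ∀ e : ZMod 2,
        (IsRational HP M e ↔ SignSeparated (casimir HP M f Δ)) ∧
        (IsRational HP M e ↔
          IsCoprime (casimir HP M f Δ 0).charpoly (casimir HP M f Δ 1).charpoly) ∧
        (IsRational HP M e ↔ IsPolynomialIn (casimir HP M f Δ) e) :=
  ⟨fun _ _ _ _ _ ι e e' => isAlgebraic_iff HP M heul ι e e', exists_numericalBasis HP M heul,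
    fun _ _ _ _ h e => main_iff h e⟩

end Pool.Agent.Results.MP_eadf0f_ag.CoefficientFields
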