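import Pool.Agent.T9h5.NG.Main

/-!
# The noncommutative Kunneth conjecture for categories generated in one parity

Let `k` be a field of characteristic zero.

**Theorem.** Let `ℳ` be a saturated dg category over `k` with `C_NC (ℳ)`, for which homological and
numerical equivalence of correspondences agree on `HP⁺ (ℳ)` (or on `HP⁻ (ℳ)`). Let `𝒜` be any saturated
dg category such that `HP⁺ (𝒜)` (respectively `HP⁻ (𝒜)`) is generated by `ℳ`: it is the sum of the images
of `HP⁺ (ℳ)` (respectively `HP⁻ (ℳ)`) under all noncommutative correspondences from `ℳ` to `𝒜`. Then
the conjecture `C_NC (𝒜)` holds, with rational coefficients, and homological and numerical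
equivalence of correspondences of `𝒜` agree on this parity.

So one parity of the periodic cyclic homology of `𝒜` is enough, nothing is assumed about the other.
Finite products of dg categories are allowed for `ℳ`, so `ℳ` may be a finite collection of dg
categories. Examples (the facts about `ℳ` are known): for `ℳ = perf (k)` the conjecture `C_NC (𝒜)`
holds if `HP⁺ (𝒜)` is spanned by the Chern characters of objects of `𝒜`. For `ℳ = perf` of curves
and abelian varieties over a subfield of the complex numbers: `C_NC (𝒜)` holds if `HP⁻ (𝒜)` is
generated by curves, or if `HP⁻ (𝒜)` or `HP⁺ (𝒜)` is generated by abelian varieties.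

Without the assumption on `𝒜` the largest part of `𝒜` which comes from `ℳ` splits off in each parity:
there is a correspondence `P` with coefficients in `k`, a combination of compositions
`𝒜 ⟶ ℳ ⟶ 𝒜`, zero on the other parity and idempotent, such that all compositions
`ℳ ⟶ 𝒜 ⟶ 𝒜 ⟶ ℳ` with `1 - P` in the middle are zero on the parity in question.

The setting. `C` is the category of the saturated dg categories over `k`, with the groups
`K_0 (𝒜ᵒᵖ ⊗ ℬ)` as morphisms. `PairedTheory` has the two parts of periodic cyclic homology and the
noncommutative Mukai pairing, the Euler form extended to `HP (𝒜)`; it is nondegenerate, and each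
correspondence has an adjoint. The supertraces of correspondences are integers, namely the Euler
characteristics of Hochschild homology with coefficients in the bimodule.

The proof. Let `V`, `W` be the part of parity `i` of `HP (ℳ)` and `HP (𝒜)`, and `R` the algebra of
operators on `V` given by combinations of correspondences. By the assumptions the trace form of `R`
is nondegenerate, so `R` is semisimple and von Neumann regular. Let `p` be an idempotent of maximal
rank among the sums of compositions `W ⟶ V ⟶ W` of correspondences. If `a = g (1 - p) f` was not
zero for some `f : V ⟶ W` and `g : W ⟶ V`, there would be `r` in `R` with `a r a = a` and `r a r = r`, and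
`p + (1 - p) f r g (1 - p)` would be an idempotent of larger rank. So the image of `(1 - p) f` is killed
by all `g`, hence by adjunction it is orthogonal to the images of all `f`, which generate `W`. So
`p = 1`, and this is made zero on the other parity by means of the projector of `ℳ`. The
coefficients in `k` can be replaced by rational ones by the theorem on the Casimir correspondence
(file `CoefficientFields`).
-/

set_option autoImplicit false

open CategoryTheory Module

namespace Pool.Agent.Results.MP_eadf0f_ag.GeneratedInOneParity

open Pool.Agent.T9h5.NK Pool.Agent.T9h5.NG

universe v w x z

/-- **The noncommutative Kunneth conjecture for categories generated in one parity** by a category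
`M` which satisfies the conjecture and for which homological and numerical equivalence agree in this
parity. -/
theorem result {k : Type x} [Field k] [CharZero k] {C : Type w} [Category.{v} C]
    (T : PairedTheory.{v, w, x, z} k C) (M A : C)
    [∀ i, FiniteDimensional k ((T.HP i).obj M)] [∀ i, FiniteDimensional k ((T.HP i).obj A)]
    (heulM : ∀ f : M ⟶ M, ∃ n : ℤ, euler T.HP f = n)
    (heulA : ∀ f : A ⟶ A, ∃ n : ℤ, euler T.HP f = n)
    (i : ZMod 2) (hC : IsRational T.HP M i) (hD : HomEqNum T.HP M i) :
    (IsGenerated T.HP M A i → (∀ e, IsRational T.HP A e) ∧ HomEqNum T.HP A i) ∧
      IsSplit T.HP M A i :=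
  ⟨fun hgen => generated T heulM heulA hC hD hgen, isSplit T heulM hC hD⟩

end Pool.Agent.Results.MP_eadf0f_ag.GeneratedInOneParity
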