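import Pool.Agent.T9h41.TPC.Tor

/-!
# The noncommutative Kunneth conjecture in positive characteristic

Let `k` be a field of characteristic `p > 0` and `𝒜` a saturated dg category over `k`.

**Theorem.** If the conjecture `C_NC (𝒜)` holds, for some field of coefficients `F` (of
characteristic `p`, any of the fields which the problem allows), then the topological periodic cyclic
homology `TP (𝒜_E)` is torsion-free, where `E` is a perfect field containing `k` and `F`, and the
dimensions of `HP⁺ (𝒜)` and `HP⁻ (𝒜)` are equal to the ranks of `TP_0 (𝒜_E)` and `TP_1 (𝒜_E)`.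

For `𝒜 = perf (X)` these ranks are the sums `∑ b_(2 i) (X)` and `∑ b_(2 i + 1) (X)` of the `ℓ`-adic Betti
numbers. So `C_NC (perf (X))` implies that the dimension of `HP⁻ (perf (X))` is the sum of the odd
Betti numbers of `X`; for surfaces, that the first de Rham Betti number `h¹_dR (X)` is equal to `b_1 (X)`,
and that the crystalline cohomology is torsion-free.

**Consequence: the conjecture is false over every field `k` of positive characteristic, also over
algebraically closed and over finite fields, and for all `F`.** For every prime number `p` there are
smooth projective surfaces `X` with `b_1 (X) = b_3 (X) = 0` and `h¹_dR (X) ≠ 0`: let `Y` be a smooth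
complete intersection of dimension two over a finite field `k'` of characteristic `p` with a free
action of `ℤ / p` (Serre), and `X = Y / (ℤ / p)`. As `b_1 (Y) = 0`, also `b_1 (X) = b_3 (X) = 0`. By the theory
of Artin and Schreier the covering `Y → X` gives a nonzero element of `H¹ (X, 𝒪)`, which comes from
`H¹ (X, 𝔽_p)` and so from `H¹_dR (X)`. For surfaces the spectral sequence from de Rham cohomology to
`HP` degenerates, so `HP⁻ (perf (X)) ≠ 0`, while the rank of `TP_1` is `b_1 + b_3 = 0`. For an arbitrary
field `k` of characteristic `p` let `k''` be a composite of `k` and `k'`, a finite separable extension of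
`k`, and let `𝒜` be `perf (X ⊗ k'')`, as a dg category over `k`. (These known facts are not part of the
formal proof.) The starting file `CurvesInPositiveCharacteristic` of this problem has counterexamples
over those fields of characteristic `p > 2` over which there are curves all whose zero-cycles have
degree divisible by `p`; there are no such curves over finite or algebraically closed fields.

**Criterion** (for all base fields, also of characteristic zero). The Kunneth projectors of `𝒜` are
`E`-linear combinations of noncommutative correspondences if and only if each subspace of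
`HP⁺ (𝒜) ⊕ HP⁻ (𝒜)` which is stable under all noncommutative self-correspondences of `𝒜` is graded. Here
`E` is any field which contains `k` and `F`. (In other words: `HP⁺` and `HP⁻` have no common composition
factor.)

The setting. `C` is the category of the saturated dg categories over `k`, with the groups
`K_0 (𝒜ᵒᵖ ⊗ ℬ)` as morphisms. The operators on `HP` given by correspondences with coefficients in `F`
are the `F`-linear combinations of the operators given by morphisms in `C` (`IsAlgebraic`; `e = 0` for
`π⁺`, `e = 1` for `π⁻`). `PeriodicTheory` has the known properties of topological periodic cyclic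
homology of saturated dg categories: it is an additive invariant, so it is a functor on `C`; for a
perfect field `E` the groups are finitely generated over the Witt vectors `W (E)`, with Bott
periodicity; and `HP = TP / p` (Hesselholt, Blumberg and Mandell, Antieau, Mathew and Nikolaus), which
gives the long exact sequences with the reduction `red` and the Bockstein map `bock`.

The proof. Let `b = ∑ c_j f_j` be a combination which acts on `HP_i` as zero and on `HP_(i + 1)` as the
identity, and lift the `c_j` to `W (E)`. Then `b` maps `TP_i` into `p TP_i`, because `TP_i / p` is contained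
in `HP_i`; and it is the identity on the elements of order `p` in `TP_i`, because these are the image
of `HP_(i + 1)` under the Bockstein map. So an element of order `p` is `b ^ n` of itself and divisible
by `p ^ n` for all `n`, hence zero. The criterion: let `I⁺` and `I⁻` be the annihilators of `HP⁺` and `HP⁻` in
the algebra of correspondences `A`. If `I⁺ + I⁻ = A` then the projectors are in `A`. Otherwise let
`S = A / m` be a simple quotient of `A / (I⁺ + I⁻)`; it is isomorphic to subquotients of `HP⁺` and of
`HP⁻`, and the graph of an isomorphism is a stable subspace which is not graded.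
-/

set_option autoImplicit false

open CategoryTheory Module

namespace Pool.Agent.Results.MP_eadf0f_ag.PositiveCharacteristic

open Pool.Agent.T9h41.TPC

universe v w x y z t

/-- The criterion: a Kunneth projector of `M` is an `E`-linear combination of endomorphisms of `M` if
and only if each subspace of `HP 0 M × HP 1 M` which is stable under the endomorphisms of `M` is
graded. -/
def Criterion {E : Type x} [Field E] {C : Type w} [Category.{v} C]
    (HP : ZMod 2 → C ⥤ ModuleCat.{z} E) (M : C) : Prop :=
  ∀ e : ZMod 2, IsAlgebraic HP (RingHom.id E) M e ↔ ∀ Γ, IsStable HP M Γ → IsGraded Γ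

/-- **The noncommutative Kunneth conjecture in positive characteristic.**

(1) The criterion, for an arbitrary field `E`.

(2) Let `E` be a perfect field of characteristic `p > 0`. If one of the Kunneth projectors of `M` is
algebraic with coefficients in a field `F`, then `TP i M` is free and of rank `dim HP i M`, for
`i = 0, 1`.

(3) If the rank of `TP i M` is not the dimension of `HP i M`, for `i = 0` or `i = 1`, then neither
Kunneth projector of `M` is algebraic, for all fields of coefficients. -/
theorem result :
    (∀ (E : Type x) [Field E] (C : Type w) [Category.{v} C] (HP : ZMod 2 → C ⥤ ModuleCat.{z} E)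
      (M : C), Module.Finite E ((HP 0).obj M) → Module.Finite E ((HP 1).obj M) →
        Criterion HP M) ∧
    ∀ (p : ℕ) [Fact p.Prime] (E : Type x) [Field E] [CharP E p] [PerfectRing E p] (C : Type w)
      [Category.{v} C] (T : PeriodicTheory.{v, w, x, y, z} p E C) (M : C),
      (∀ (F : Type t) [Field F] (ι : F →+* E) (e : ZMod 2), IsAlgebraic T.HP ι M e →
        ∀ i : ZMod 2, T.FreeTP i M ∧ T.dimHP i M = T.rankTP i M) ∧
      ((∃ i : ZMod 2, T.dimHP i M ≠ T.rankTP i M) →
        ∀ (F : Type t) [Field F] (ι : F →+* E) (e : ZMod 2), ¬ IsAlgebraic T.HP ι M e) := by
  refine ⟨?_, fun p _ E _ _ _ C _ T M => ⟨fun F _ ι e h i => main T ι M e h i, ?_⟩⟩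
  · intro E _ C _ HP M _ _ e
    classical
    let r : ∀ i : ZMod 2, End M →* Module.End E ((HP i).obj M) := fun i =>
      { toFun := fun f => ((HP i).map f).hom
        map_one' := by
          change ((HP i).map (𝟙 M)).hom = 1
          rw [CategoryTheory.Functor.map_id]
          rfl
        map_mul' := fun f g => by
          change ((HP i).map ((g : M ⟶ M) ≫ f)).hom = _
          rw [CategoryTheory.Functor.map_comp]
          rfl }
    have hsum : ∀ (i : ZMod 2) {n : ℕ} (c : Fin n → E) (f : Fin n → (M ⟶ M)),
        (∑ j, c j • (HP i).map (f j)).hom = ∑ j, c j • r i (f j) := by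
      intro i n c f
      rw [ModuleCat.hom_sum]
      rfl
    have key := projector_iff (E := E) (r 0) (r 1)
    have key2 : ∀ e : ZMod 2, e = 0 ∨ e = 1 := by decide
    have h01 : (0 : ZMod 2) ≠ 1 := by decide
    -- the two projectors
    have hswap : ∀ e e' : ZMod 2, e ≠ e' → IsAlgebraic HP (RingHom.id E) M e →
        IsAlgebraic HP (RingHom.id E) M e' := by
      rintro e e' hee ⟨n, c, f, hc⟩
      refine ⟨n + 1, Fin.cons 1 fun j => -c j, Fin.cons (𝟙 M) f, fun i => ?_⟩
      have key4 : ∀ e e' i : ZMod 2, e ≠ e' → i ≠ e → i = e' := by decide
      have h1 : ∑ j, (RingHom.id E) ((Fin.cons 1 fun j => -c j : Fin (n + 1) → E) j) •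
          (HP i).map ((Fin.cons (𝟙 M) f : Fin (n + 1) → (M ⟶ M)) j) =
          𝟙 _ - ∑ j, (RingHom.id E) (c j) • (HP i).map (f j) := by
        rw [Fin.sum_univ_succ]
        simp only [Fin.cons_zero, Fin.cons_succ, RingHom.id_apply, one_smul, neg_smul,
          Finset.sum_neg_distrib, CategoryTheory.Functor.map_id, sub_eq_add_neg]
      rw [h1, hc]
      by_cases hi : i = e
      · rw [if_pos hi, if_neg (fun h => hee (hi.symm.trans h)), sub_self]
      · rw [if_neg hi, if_pos (key4 e e' i hee hi), sub_zero]
    have hzero : IsAlgebraic HP (RingHom.id E) M e ↔ IsAlgebraic HP (RingHom.id E) M 0 := by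
      rcases key2 e with rfl | rfl
      · exact Iff.rfl
      · exact ⟨hswap 1 0 h01.symm, hswap 0 1 h01⟩
    rw [hzero]
    constructor
    · rintro ⟨n, c, f, hc⟩ Γ hΓ a ha
      have h1 : (a.1, (0 : (HP 1).obj M)) ∈ Γ := by
        refine key.1 ⟨n, c, f, ?_, ?_⟩ Γ (fun g x hx => hΓ g x hx) a ha
        · have h2 := congrArg ModuleCat.Hom.hom (hc 0)
          rw [if_pos rfl] at h2
          exact (hsum 0 c f).symm.trans h2
        · have h2 := congrArg ModuleCat.Hom.hom (hc 1)
          rw [if_neg h01.symm] at h2
          exact (hsum 1 c f).symm.trans h2
      refine ⟨h1, ?_⟩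
      have h2 := Γ.sub_mem ha h1
      have h3 : a - (a.1, (0 : (HP 1).obj M)) = (0, a.2) := by
        refine Prod.ext ?_ ?_
        · exact sub_self _
        · exact sub_zero _
      rwa [h3] at h2
    · intro h
      obtain ⟨n, c, f, h0, h1⟩ := key.2 fun Γ hΓ x hx => (h Γ (fun g y hy => hΓ g y hy) x hx).1
      refine ⟨n, c, f, fun i => ?_⟩
      rcases key2 i with rfl | rfl
      · rw [if_pos rfl]
        exact ModuleCat.hom_ext ((hsum 0 c f).trans h0)
      · rw [if_neg h01.symm]
        exact ModuleCat.hom_ext ((hsum 1 c f).trans h1)
  · rintro ⟨i, hi⟩ F _ ι e h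
    exact hi (main T ι M e h i).2

end Pool.Agent.Results.MP_eadf0f_ag.PositiveCharacteristic
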