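import Pool.Agent.T9h5.NT.Law

/-!
# The noncommutative Kunneth conjecture for tensor products and tensor powers

Let `k` be a field of characteristic zero. For a saturated dg category `𝒜` over `k` let `b (𝒜)` be the
dimension of the periodic cyclic homology `HP (𝒜)`, let `c (𝒜)` be the largest dimension of a direct
sum of an even and an odd direct summand of `𝒜` (for `k`-linear combinations of noncommutative
correspondences), and `g (𝒜)` the largest rank of an idempotent combination of correspondences which
is numerically equivalent to zero.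

**Theorem.** (1) `C_NC (𝒜)` holds if and only if `c (𝒜) = b (𝒜)`.

(2) If `HP (𝒜)` and `HP (ℬ)` are not zero then `C_NC (𝒜 ⊗ ℬ)` holds if and only if `C_NC (𝒜)` and
`C_NC (ℬ)` hold.

(3) `c (𝒜 ⊗ ℬ) ≤ c (𝒜) c (ℬ) + (b (𝒜) - c (𝒜)) (b (ℬ) - c (ℬ))`.

(4) `c (𝒜 ^ ⊗ n) ≤ (b (𝒜) - g (𝒜)) ^ n`.

(5) Let `1 / 2 < θ ≤ 1`. Then `C_NC (𝒜)` holds as soon as `c (𝒜 ^ ⊗ n) ≥ θ b (𝒜) ^ n` for infinitely
many `n`. In other words: if `C_NC (𝒜)` fails, then the upper limit of the share of the even and odd
summands in the tensor powers of `𝒜` is at most one half. The conjecture `C_NC` holds for all `𝒜` if and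
only if `c (𝒜) ≥ θ b (𝒜)` for all `𝒜`.

The setting. `C` is the category of saturated dg categories with the groups `K_0 (𝒜ᵒᵖ ⊗ ℬ)` as
morphisms, which is a rigid symmetric monoidal category, and periodic cyclic homology is a
symmetric monoidal functor to super vector spaces. Only the following is used: functoriality, the
Kunneth isomorphism, and that the partial supertrace over `ℬ` of the operator of an endomorphism of
`𝒜 ⊗ ℬ` is the operator of an endomorphism of `𝒜`.

The proof. If parity is algebraic on `𝒜 ⊗ ℬ`, its partial supertrace over `ℬ` is `b (ℬ)` times the parity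
of `𝒜`. Let `e` be a sum of an even and an odd idempotent of maximal rank; then the trace of `a (1 - e)`
vanishes for all combinations `a` of correspondences with even or with odd image. If `f` is such an
idempotent for `ℬ`, it follows with partial supertraces that `q = e ⊗ (1 - f) + (1 - e) ⊗ f` has the same
property for `𝒜 ⊗ ℬ`, so the rank of a pure idempotent is at most the rank of
`1 - q = e ⊗ f + (1 - e) ⊗ (1 - f)`. For `u_n = 2 c (𝒜 ^ ⊗ n) / b (𝒜) ^ n - 1` this gives
`u_(m + n) ≤ u_m u_n`, and by (1) and (2) all `u_n` are less than `1` if `C_NC (𝒜)` fails. So the upper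
limit of `u_n` is at most zero.
-/

set_option autoImplicit false

open CategoryTheory MonoidalCategory Filter

namespace Pool.Agent.Results.MP_eadf0f_ag.TensorPowers

open Pool.Agent.T9h5.NT

universe v w x z

/-- **The noncommutative Kunneth conjecture for tensor products and tensor powers.** -/
theorem result {k : Type x} [Field k] [CharZero k] {C : Type w} [Category.{v} C]
    [MonoidalCategory C] (R : Realisation.{v, w, x, z} k C) (hs : IsSuperFunctor R)
    (hm : IsMonoidal R) :
    (∀ A : C, IsGreatest (pureRanks R A) (pureDim R A) ∧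
      IsGreatest (phantomRanks R A) (phantomDim R A) ∧
      (Kunneth R A ↔ pureDim R A = dim R A)) ∧
    (∀ A B : C, dim R A ≠ 0 → dim R B ≠ 0 →
      (Kunneth R (A ⊗ B) ↔ Kunneth R A ∧ Kunneth R B)) ∧
    (∀ A B : C, pureDim R (A ⊗ B) ≤ pureDim R A * pureDim R B +
      (dim R A - pureDim R A) * (dim R B - pureDim R B)) ∧
    (∀ (A : C) (n : ℕ), pureDim R (pw A n) ≤ (dim R A - phantomDim R A) ^ (n + 1)) ∧
    ∀ θ : ℝ, 1 / 2 < θ → θ ≤ 1 →
      (∀ A : C, Kunneth R A ↔
        ∃ᶠ n in atTop, θ * dim R (pw A n) ≤ pureDim R (pw A n)) ∧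
      ((∀ A : C, Kunneth R A) ↔ ∀ A : C, θ * dim R A ≤ pureDim R A) :=
  ⟨fun A => ⟨isGreatest hs A, isGreatest_phantom R A, kunneth_iff hs⟩,
    fun _ _ hA hB => ⟨fun h => ⟨kunneth_left hs hm hB h, kunneth_right hs hm hA h⟩,
      fun h => kunneth_tensor hs hm h.1 h.2⟩,
    fun A B => pureDim_tensor_le hs hm A B, fun A n => pureDim_pw_le_pow hs hm A n,
    fun _ hθ hθ' => ⟨fun A => kunneth_iff_frequently hs hm A hθ hθ', forall_iff hs hm hθ hθ'⟩⟩

end Pool.Agent.Results.MP_eadf0f_ag.TensorPowers
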